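import Pool.Agent.U436.KC.Core
import Pool.Agent.U436.HP.Main

/-!
# The top symmetric products of abelian coverings of the line with `d + 2` branch points
-/

set_option autoImplicit false

namespace Pool.Agent.U436.TD

open Polynomial Finset Pool.Agent.U436.HP Pool.Agent.U436.KC

variable {k : Type*} [Field k] {r d : ℕ}

/-- The fixed variety `∑ u i = 0`, `y s ^ n s = ∏ u i ^ A s i`. -/
def target (A : Fin r → Fin (d + 2) → ℕ) (n : Fin r → ℕ) : Set ((Fin (d + 2) → k) × (Fin r → k)) :=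
  {z | z.1 ≠ 0 ∧ ∑ i, z.1 i = 0 ∧ ∀ s, z.2 s ^ n s = ∏ i, z.1 i ^ A s i}

/-- The covering of the line: nonzero binary forms `L` (polynomials of degree at most one) and
`y s ^ n s = ∏ L (p i) ^ A s i`. -/
def curve (p : Fin (d + 2) → k) (A : Fin r → Fin (d + 2) → ℕ) (n : Fin r → ℕ) : Set (k[X] × (Fin r → k)) :=
  {z | z.1 ≠ 0 ∧ z.1.natDegree ≤ 1 ∧ ∀ s, z.2 s ^ n s = ∏ i, z.1.eval (p i) ^ A s i}

/-- The map from the `d`-th power of the curve; `wt p i` is the inverse of `∏ (p i - p j)`. -/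
noncomputable def toTarget (p : Fin (d + 2) → k) (c : Fin r → k) (x : Fin d → k[X] × (Fin r → k)) :
    (Fin (d + 2) → k) × (Fin r → k) :=
  (fun i => wt p i * ∏ l, (x l).1.eval (p i), fun s => c s * ∏ l, (x l).2 s)

/-- The same point for the weights `E0` (of the `u`) and `E s` (of the `y s`). -/
def SamePoint (E0 : ℕ) (E : Fin r → ℕ) (z z' : (Fin (d + 2) → k) × (Fin r → k)) : Prop :=
  ∃ t : k, t ≠ 0 ∧ (∀ i, z'.1 i = t ^ E0 * z.1 i) ∧ ∀ s, z'.2 s = t ^ E s * z.2 s

variable {p : Fin (d + 2) → k} {A : Fin r → Fin (d + 2) → ℕ} {n : Fin r → ℕ} {c : Fin r → k}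

lemma toTarget_eq (x : Fin d → k[X] × (Fin r → k)) :
    toTarget p c x = (fun i => wt p i * (prodMap x).1.eval (p i), fun s => c s * (prodMap x).2 s) := by
  unfold toTarget prodMap
  simp only [eval_prod]

lemma mem_target_iff (h : Function.Injective p) (hc : ∀ s, c s ^ n s = ∏ i, wt p i ^ A s i)
    (hc0 : ∀ s, c s ≠ 0) (z : (Fin (d + 2) → k) × (Fin r → k)) :
    z ∈ target A n ↔ ∃ y ∈ cover d p A n, z = (fun i => wt p i * y.1.eval (p i), fun s => c s * y.2 s) := by
  have hN : 1 + d + 1 = d + 2 := by ring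
  have key : ∀ (P : k[X]) (w : Fin r → k) (s : Fin r), w s ^ n s = ∏ i, P.eval (p i) ^ A s i ↔
      (c s * w s) ^ n s = ∏ i, (wt p i * P.eval (p i)) ^ A s i := by
    intro P w s
    simp only [mul_pow]
    rw [Finset.prod_mul_distrib, ← hc s]
    exact (mul_right_inj' (pow_ne_zero _ (hc0 s))).symm
  obtain ⟨u, w⟩ := z
  constructor
  · rintro ⟨h0, h1, h2⟩
    simp only at h0 h1 h2
    obtain ⟨P, hPd, hP⟩ := (exists_poly_iff h hN (fun i => u i / wt p i)).mp (by
        intro j hj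
        have hj0 : j = 0 := by omega
        subst hj0
        simp only [pow_zero, mul_one]
        rw [← h1]
        exact Finset.sum_congr rfl fun j _ => mul_div_cancel₀ _ (wt_ne_zero h j))
    have hu : ∀ i, wt p i * P.eval (p i) = u i := by
      intro i
      rw [hP i, mul_div_cancel₀ _ (wt_ne_zero h i)]
    refine ⟨(P, fun s => w s / c s), ⟨?_, hPd, fun s => ?_⟩, ?_⟩
    · rintro rfl
      apply h0
      funext i
      rw [← hu i]; simp
    · rw [key P _ s, mul_div_cancel₀ _ (hc0 s)]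
      simp only [hu]
      exact h2 s
    · exact Prod.ext (funext fun i => (hu i).symm) (funext fun s => (mul_div_cancel₀ _ (hc0 s)).symm)
  · rintro ⟨⟨P, w'⟩, ⟨hP0, hPd, hw⟩, hz⟩
    simp only at hP0 hPd hw hz
    have hu : u = fun i => wt p i * P.eval (p i) := congrArg Prod.fst hz
    have hw' : w = fun s => c s * w' s := congrArg Prod.snd hz
    subst hu hw'
    refine ⟨?_, ?_, fun s => (key P w' s).mp (hw s)⟩
    · intro h1
      refine hP0 (poly_eq_zero h (by omega) fun i => ?_)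
      exact (mul_eq_zero.mp (congrFun h1 i)).resolve_left (wt_ne_zero h i)
    · have h1 := (exists_poly_iff h hN (fun i => P.eval (p i))).mpr ⟨P, hPd, fun i => rfl⟩ 0 (by omega)
      simpa only [pow_zero, mul_one] using h1

theorem toTarget_mem (h : Function.Injective p) (hc : ∀ s, c s ^ n s = ∏ i, wt p i ^ A s i)
    (hc0 : ∀ s, c s ≠ 0) {x : Fin d → k[X] × (Fin r → k)} (hx : ∀ l, x l ∈ curve p A n) :
    toTarget p c x ∈ target A n := by
  rw [mem_target_iff h hc hc0]
  exact ⟨prodMap x, prodMap_mem hx, toTarget_eq x⟩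

theorem toTarget_surj [IsAlgClosed k] (hd : 1 ≤ d) (hn : ∀ s, n s ≠ 0) (h : Function.Injective p)
    (hc : ∀ s, c s ^ n s = ∏ i, wt p i ^ A s i) (hc0 : ∀ s, c s ≠ 0)
    {z : (Fin (d + 2) → k) × (Fin r → k)} (hz : z ∈ target A n) :
    ∃ x : Fin d → k[X] × (Fin r → k), (∀ l, x l ∈ curve p A n) ∧ toTarget p c x = z := by
  obtain ⟨y, hy, hzy⟩ := (mem_target_iff h hc hc0 z).mp hz
  obtain ⟨x, hx, hxy⟩ := prodMap_surj hd hn hy
  refine ⟨x, hx, ?_⟩
  rw [toTarget_eq, hxy, hzy]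

theorem toTarget_same_iff [IsAlgClosed k] (hn : ∀ s, n s ≠ 0) (h : Function.Injective p)
    (hc0 : ∀ s, c s ≠ 0) {E0 : ℕ} (hE0 : E0 ≠ 0) {E : Fin r → ℕ} (hE : ∀ s, n s * E s = E0 * ∑ i, A s i)
    {x x' : Fin d → k[X] × (Fin r → k)} (hx : ∀ l, x l ∈ curve p A n) (hx' : ∀ l, x' l ∈ curve p A n) :
    SamePoint E0 E (toTarget p c x) (toTarget p c x') ↔
      ∃ (σ : Equiv.Perm (Fin d)) (ζ : Fin d → Fin r → k) (τ : k) (κ : Fin d → k),
        (∀ j s, ζ j s ^ n s = 1) ∧ τ ^ E0 = 1 ∧ (∀ s, ∏ j, ζ j s = τ ^ E s) ∧ (∀ j, κ j ≠ 0) ∧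
          ∀ j, (x' j).1 = C (κ j ^ E0) * (x (σ j)).1 ∧
            ∀ s, (x' j).2 s = κ j ^ E s * (ζ j s * (x (σ j)).2 s) := by
  rw [← prodMap_eq_iff hn hE0 hE hx hx', toTarget_eq, toTarget_eq]
  unfold SamePoint
  refine exists_congr fun t => and_congr_right fun ht => ?_
  simp only
  refine and_congr ?_ (forall_congr' fun s => ?_)
  · constructor
    · intro h1
      rw [← sub_eq_zero]
      refine poly_eq_zero h ?_ fun i => ?_
      · refine lt_of_le_of_lt (natDegree_sub_le _ _) (max_lt ?_ ?_)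
        · have := (prodMap_mem hx').2.1; omega
        · refine lt_of_le_of_lt (natDegree_C_mul_le _ _) ?_
          have := (prodMap_mem hx).2.1; omega
      · rw [eval_sub, eval_mul, eval_C, sub_eq_zero]
        refine mul_left_cancel₀ (wt_ne_zero h i) ?_
        rw [h1 i]; ring
    · intro h1 i
      rw [h1, eval_mul, eval_C]; ring
  · constructor
    · intro h2
      refine mul_left_cancel₀ (hc0 s) ?_
      rw [h2]; ring
    · intro h2
      rw [h2]; ring

end Pool.Agent.U436.TD
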